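import Pool.Agent.Q27.HT.Emb

/-!
# MP_16fe43_al: hierarchies over virtually cyclic subgroups

`C` is any class of groups which contains the metabelian groups and has the closure properties
`ClosedA C` (the usual closure properties `ClosedE C` and closure under acylindrical actions on
trees, in the fibered version); all of this is known for the class of the groups which satisfy the
K-theoretic Farrell–Jones conjecture with coefficients and finite wreath products.

For an element `z` let `KC z` be the group of the elements which commute with a positive power of
`z`. A group has the property `Det` if no positive power of an element `z` of infinite order is in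
the commutator subgroup of `KC z`, i.e. each `z` of infinite order is mapped to a nonzero number by
a homomorphism from `KC z` to `ℚ`.

1. If a group acts without inversions on a tree with virtually cyclic edge stabilizers and all
vertex stabilizers are in `C` and have `Det`, then the group is in `C` and has `Det`. There is no
other condition on the edge stabilizers: the tree may have infinitely many orbits of edges, the
action need not be acylindrical, the edge groups may be unbalanced. Since `Det` is inherited this can
be iterated.

2. `C ∩ Det` is closed under subgroups, finite products, overgroups of finite index and directed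
unions. All abelian groups and all linear groups without unipotent elements of infinite order, e.g.
all linear groups in positive characteristic, have `Det`. (So have hyperbolic and CAT(0) groups.)

Proof of the inheritance of `Det`: a hyperbolic element is detected by the translation length along
its axis. If `z` is elliptic let `Y` be the subtree of the vertices fixed by a power of `z`. On the
stabilizers in `KC z` of the vertices of `Y` there are homomorphisms to `ℚ` with value `1` at `z`.
They agree on the stabilizers of the edges, whose elements have powers in `⟨z⟩`, and can be chosen
compatible with conjugation by `KC z`. A compatible cocycle on a tree is cohomologous to a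
homomorphism (`tree_hom`).
-/

set_option autoImplicit false

namespace Pool.Agent.Results.MP_16fe43_al.CyclicHierarchies

open Q182.Cyl (ClosedA Est)
open Q27.HT

/-- **the theorem** -/
theorem result :
    -- 1. trees with virtually cyclic edge stabilizers
    (∀ C : ∀ (G : Type) [Group G], Prop, ClosedA C →
      (∀ (G : Type) [Group G], derivedSeries G 2 = ⊥ → C G) →
      ∀ (G V : Type) [Group G] [MulAction G V] (T : SimpleGraph V), T.IsTree →
      (∀ (g : G) (v w : V), T.Adj v w → T.Adj (g • v) (g • w)) →
      (∀ (g : G) (v w : V), T.Adj v w → ¬ (g • v = w ∧ g • w = v)) →
      (∀ v w : V, T.Adj v w →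
        ∃ c ∈ Est G v w, (Subgroup.zpowers c).relIndex (Est G v w) ≠ 0) →
      (∀ v : V, C (MulAction.stabilizer G v)) → (∀ v : V, Det (MulAction.stabilizer G v)) →
      C G ∧ Det G) ∧
    -- 2. the class `Det`
    (∀ (G H : Type) [Group G] [Group H] (f : G →* H), Function.Injective f → Det H → Det G) ∧
    (∀ (G H : Type) [Group G] [Group H], Det G → Det H → Det (G × H)) ∧
    (∀ (G : Type) [Group G] (K : Subgroup G), K.FiniteIndex → Det K → Det G) ∧
    (∀ (G : Type) [Group G], (∀ s : Finset G, Det (Subgroup.closure (s : Set G))) → Det G) ∧
    (∀ (G : Type) [Group G], (∀ a b : G, a * b = b * a) → Det G) ∧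
    (∀ (G F : Type) [Group G] [Field F] (n : ℕ) (ρ : G →* Matrix (Fin n) (Fin n) F),
      (∀ z : G, (∀ k : ℕ, 0 < k → z ^ k ≠ 1) → ∀ k : ℕ, 0 < k → ¬ IsNilpotent (ρ z ^ k - 1)) →
      Det G) ∧
    (∀ (G F : Type) [Group G] [Field F] (n : ℕ) (ρ : G →* Matrix (Fin n) (Fin n) F),
      Function.Injective ρ → ringChar F ≠ 0 → Det G) := by
  refine ⟨?_, fun G H _ _ f hf h => h.of_injective f hf, fun G H _ _ h h' => h.prod h',
    fun G _ K hK h => ?_, fun G _ h => Det.of_local h, fun G _ h => det_comm h,
    fun G F _ _ n ρ h => det_linear ρ h, fun G F _ _ n ρ h hp => det_linear_char ρ h hp⟩
  · intro C hC hmet G V _ _ T hT hadj hinv hvc hst hdet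
    exact ⟨mem_tree hC hmet ⟨hT, hadj, hinv⟩ hvc hst hdet, det_tree ⟨hT, hadj, hinv⟩ hvc hdet⟩
  · have := hK
    exact Det.of_finiteIndex K h

end Pool.Agent.Results.MP_16fe43_al.CyclicHierarchies
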