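import Pool.Agent.Q27.AB.Cyl

/-!
# Groups acting on trees with edge stabilizers detected by local abelianizations

`C` is any class of groups which contains the metabelian groups and has the closure properties
`ClosedA C`, which are known for the groups which satisfy the K-theoretic Farrell–Jones conjecture with
coefficients and finite wreath products. For torsion-free groups this conjecture implies the vanishing
of the Whitehead group, of the reduced projective class group and of the negative K-groups of the
integral group ring.

Let `G` act without inversions on a tree with vertex stabilizers `G_v` in `C`. For an edge `e` at a
vertex `v` let `N(v, e)` be the subgroup of `G_v` generated by the stabilizers of the edges at `v` which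
are joined to `e` by a sequence of edges at `v` such that the stabilizers of consecutive edges have an
infinite intersection. We show that `G` is in `C` if every infinite edge stabilizer `G_e` meets the
commutator subgroup of `N(v, e)` trivially, for both ends `v` of `e`; in other words, `G_e` embeds in the
abelianization of `N(v, e)`. There are no conditions on the quotients of the vertex stabilizers, on the
centralizers of the edge stabilizers, or on finite generation.

This holds in particular if infinite edge stabilizers are abelian and infinite subsets of the edge
stabilizers at `v` have abelian centralizers in `G_v`, e.g. if edge stabilizers are abelian and the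
vertex stabilizers are torsion-free and commutation transitive; and if the stabilizers of the edges at
each vertex commute with each other.

Outline of the proof. The classes of edges are subtrees; coning them off gives a tree with an
acylindrical action (`main_red`), so we may assume that there is one class. `G` embeds in a multiple HNN
extension of a free product of vertex stabilizers, and this is a directed colimit of groups acting on
trees with finitely generated edge stabilizers (`main`). Let `N` be the normal subgroup generated by the
edge stabilizers. Families of characters of the stabilizers are extended along the tree `N \ T` and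
glued to characters of `N`, which shows that edge stabilizers meet `[N, N]` trivially (`comm_triv`); so
subgroups with a quotient in `C` by a subgroup of `N` are in `C` (`ker_mem`). `G / N` acts on `N \ T` with
trivial edge stabilizers. The preimage `P` of a vertex stabilizer is `G_v N`. We embed `G_v` in a group
`L` in `C` in which the elements of the kernel of `G_v → G_v / N_v` have commuting roots
(`exists_roots`); the inclusions of the edge stabilizers in `L` extend to homomorphisms of `N`
(`ext_root`), and these can be glued to a homomorphism of `P` to `L` with kernel in `N` (`vert_mem`).
-/

set_option autoImplicit false

namespace Pool.Agent.Results.MP_16fe43_al.DetectedEdges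

open Q182.Cyl (ClosedA)
open Q27.AB (NC)

/-- Let `C` be a class of groups with the closure properties `ClosedA C` which contains all
metabelian groups. Let `G` be a group acting without inversions on a tree with vertex stabilizers in
`C`. Then `G` is in `C` in each of the following cases.

(1) For every edge `{v, w}` with infinite stabilizer only the identity fixes `v` and `w` and is in the
commutator subgroup of the group `NC G T v w`, which is generated by the stabilizers of the edges
`{v, w'}` with `w'` near `w`.

(2) Infinite edge stabilizers are abelian, and for every vertex `v` and every infinite set `B` of
elements of the stabilizer of an edge at `v` the elements which fix `v` and commute with all elements of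
`B` commute.

(3) For every vertex `v` any two elements which fix edges at `v` commute. -/
theorem result (C : ∀ (G : Type) [Group G], Prop) (hC : ClosedA C)
    (hmet : ∀ (G : Type) [Group G], derivedSeries G 2 = ⊥ → C G)
    (G V : Type) [Group G] [MulAction G V] (T : SimpleGraph V) (hT : T.IsTree)
    (hadj : ∀ (g : G) (v w : V), T.Adj v w → T.Adj (g • v) (g • w))
    (hinv : ∀ (g : G) (v w : V), T.Adj v w → ¬ (g • v = w ∧ g • w = v))
    (hst : ∀ v : V, C (MulAction.stabilizer G v)) :
    ((∀ v w : V, T.Adj v w → {g : G | g • v = v ∧ g • w = w}.Infinite →
        ∀ s : G, s • v = v → s • w = w → s ∈ ⁅NC G T v w, NC G T v w⁆ → s = 1) → C G) ∧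
    ((∀ v w : V, T.Adj v w → {g : G | g • v = v ∧ g • w = w}.Infinite →
        ∀ a b : G, a • v = v → a • w = w → b • v = v → b • w = w → a * b = b * a) →
      (∀ v w : V, T.Adj v w → ∀ B : Set G, B.Infinite → (∀ x ∈ B, x • v = v ∧ x • w = w) →
        ∀ a b : G, a • v = v → b • v = v → (∀ x ∈ B, a * x = x * a) →
          (∀ x ∈ B, b * x = x * b) → a * b = b * a) → C G) ∧
    ((∀ v w w' : V, T.Adj v w → T.Adj v w' → ∀ s s' : G, s • v = v → s • w = w →
        s' • v = v → s' • w' = w' → s * s' = s' * s) → C G) :=
  ⟨fun h => Q27.AB.main_cls hC hmet ⟨hT, hadj, hinv⟩ hst h,
    fun h1 h2 => Q27.AB.main_ct hC hmet ⟨hT, hadj, hinv⟩ hst
      (fun v w hvw hinf a ha b hb => h1 v w hvw hinf a b ha.1 ha.2 hb.1 hb.2)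
      (fun v w hvw B hB hinf => h2 v w hvw B hinf hB),
    fun h => Q27.AB.main_ab hC hmet ⟨hT, hadj, hinv⟩ hst h⟩

end Pool.Agent.Results.MP_16fe43_al.DetectedEdges
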