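import Pool.Agent.Q175.LG.Lau

set_option autoImplicit false

/-! Let `G` be a torsion-free group. Projective modules over `ℤ[G × ℤ^r]` with a presentation which is
controlled over `G` by an integral matrix whose norm is in a window above `3 / √2` are free; all
finitely presented modules over `ℤ[G × ℤ^r]` have presentations of linear size controlled by matrices
whose norm is exponentially close to `3 / √2`. -/

namespace Pool.Agent.Results.MP_16fe43_al.LaurentWindow

open TH57.Thr TH6.PF Matrix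

/-- The group ring `ℤ[G × ℤ^r]`, the ring of Laurent polynomials in `r` variables over `ℤG`. -/
abbrev LR (G : Type) [Group G] (r : ℕ) : Type :=
  MonoidAlgebra ℤ (G × Multiplicative (Fin r → ℤ))

/-- The module `P` over `S` is isomorphic to the module of row vectors modulo the rows of `M`. -/
def IsCokernel (S : Type) [Ring S] (P : Type) [AddCommGroup P] [Module S P] {m n : ℕ}
    (M : Matrix (Fin m) (Fin n) S) : Prop :=
  Nonempty (P ≃ₗ[S] ((Fin n → S) ⧸ LinearMap.range M.vecMulLinear))

/-- The matrix `M` over `ℤ[G × ℤ^r]` is controlled over `G` by the matrix `N` over `ℤG`: if the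
coefficient of `M i j` at `(g, z)` is not zero then the coefficient of `N i j` at `g` is not zero. -/
def Controlled {G : Type} [Group G] {r m n : ℕ} (M : Matrix (Fin m) (Fin n) (LR G r))
    (N : Matrix (Fin m) (Fin n) (MonoidAlgebra ℤ G)) : Prop :=
  ∀ i j x, (M i j).coeff x ≠ 0 → (N i j).coeff x.1 ≠ 0

/-- The module `P` over `ℤ[G × ℤ^r]` is presented by a matrix which is controlled by `N`. -/
def PresentedBy (G : Type) [Group G] (r : ℕ) (P : Type) [AddCommGroup P] [Module (LR G r) P]
    {m n : ℕ} (N : Matrix (Fin m) (Fin n) (MonoidAlgebra ℤ G)) : Prop :=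
  ∃ M : Matrix (Fin m) (Fin n) (LR G r), Controlled M N ∧ IsCokernel (LR G r) P M

/-- Spectral gap: the spectrum of `N N*` is contained in `{0} ∪ [K⁻², ∞)`; that is, every `x` is within
distance `K |xN|` of the kernel of `N` on `ℓ²`, formulated with finitely supported vectors. -/
def Gap {G : Type} [Group G] {m n : ℕ} (N : Matrix (Fin m) (Fin n) (MonoidAlgebra ℤ G)) (K : ℕ) :
    Prop :=
  ∀ (x : Fin m → MonoidAlgebra ℝ G) (ε : ℝ), 0 < ε → ∃ x' : Fin m → MonoidAlgebra ℝ G,
    normSq (x' ᵥ* toReal N) ≤ ε ∧ normSq (x - x') ≤ (K : ℝ) ^ 2 * normSq (x ᵥ* toReal N) + ε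

/-- The norm of `N` is at most `3 / √2 + 2⁻ᴸ`, and `L` is large compared with the size or with the
inverse of the square root of the spectral gap of `N`. -/
def Window {G : Type} [Group G] {m n : ℕ} (N : Matrix (Fin m) (Fin n) (MonoidAlgebra ℤ G)) : Prop :=
  ∃ L : ℕ, NormLE N (3 / Real.sqrt 2 + (1 / 2) ^ L) ∧
    (2 * min m n + 30 ≤ L ∨ ∃ K : ℕ, Gap N K ∧ 16 * K + 31 ≤ L)

/-- `P` is a finite direct sum of modules induced from finitely presented modules over the group rings
of subgroups `V b` of `E` with cyclic image in `G`. -/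
def InducedSum {E G : Type} [Group E] [Group G] (φ : E →* G) (P : Type) [AddCommGroup P]
    [Module (MonoidAlgebra ℤ E) P] : Prop :=
  ∃ (k : ℕ) (V : Fin k → Subgroup E) (p q : Fin k → ℕ)
    (B : ∀ b, Matrix (Fin (p b)) (Fin (q b)) (MonoidAlgebra ℤ (V b))),
    (∀ b, IsCyclic ((V b).map φ)) ∧
    Nonempty (P ≃ₗ[MonoidAlgebra ℤ E] ∀ b, Coker (indM (B b)))

/-- `P` is stably free: `P ⊕ Sᵃ ≅ Sᵇ`. -/
def StFree (S : Type) [Ring S] (P : Type) [AddCommGroup P] [Module S P] : Prop :=
  ∃ a b : ℕ, Nonempty ((P × (Fin a → S)) ≃ₗ[S] (Fin b → S))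

/-- `P` is presented by a matrix with at most `C L` rows and columns and norm at most
`3 / √2 + 2⁻ᴸ`. -/
def Near (G : Type) [Group G] (r C L : ℕ) (P : Type) [AddCommGroup P] [Module (LR G r) P] : Prop :=
  ∃ (m n : ℕ) (N : Matrix (Fin m) (Fin n) (MonoidAlgebra ℤ G)), m ≤ C * L ∧ n ≤ C * L ∧
    NormLE N (3 / Real.sqrt 2 + (1 / 2) ^ L) ∧ PresentedBy G r P N

/-- (1) Modules with a presentation in the window are induced; if they are projective, they are
free. -/
def InWindow (G : Type) [Group G] (r : ℕ) : Prop :=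
  ∀ (P : Type) [AddCommGroup P] [Module (LR G r) P]
    (m n : ℕ) (N : Matrix (Fin m) (Fin n) (MonoidAlgebra ℤ G)),
    PresentedBy G r P N → Window N →
      InducedSum (MonoidHom.fst G (Multiplicative (Fin r → ℤ))) P ∧
        (Module.Projective (LR G r) P → Module.Free (LR G r) P)

/-- (2) Finitely presented modules have presentations of linear size and norm exponentially close to
`3 / √2`. -/
def LinearSize (G : Type) [Group G] (r : ℕ) : Prop :=
  ∀ (P : Type) [AddCommGroup P] [Module (LR G r) P], Module.FinitePresentation (LR G r) P →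
    ∃ C : ℕ, ∀ L : ℕ, 1 ≤ L → Near G r C L P

/-- The reduced projective class group of `ℤ[G × ℤ^r]` vanishes: all finitely generated projective
modules are stably free. -/
def AllStFree (G : Type) [Group G] (r : ℕ) : Prop :=
  ∀ (P : Type) [AddCommGroup P] [Module (LR G r) P],
    Module.Finite (LR G r) P → Module.Projective (LR G r) P → StFree (LR G r) P

/-- All projective modules which are presented by matrices of size at most `C L` and norm at most
`3 / √2 + 2⁻ᴸ` are stably free. -/
def NearStFree (G : Type) [Group G] (r C L : ℕ) : Prop :=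
  ∀ (P : Type) [AddCommGroup P] [Module (LR G r) P],
    Module.Projective (LR G r) P → Near G r C L P → StFree (LR G r) P

/-- `NormLE N c`: right multiplication by `N` on `ℓ²` has norm at most `|c|`. -/
theorem result (G : Type) [Group G] (htf : ∀ g : G, ∀ k : ℕ, 0 < k → g ^ k = 1 → g = 1) (r : ℕ) :
    InWindow G r ∧ LinearSize G r ∧
      (AllStFree G r ↔ ∀ C : ℕ, ∃ L : ℕ, 1 ≤ L ∧ NearStFree G r C L) := by
  have hwin : ∀ {m n : ℕ} (N : Matrix (Fin m) (Fin n) (MonoidAlgebra ℤ G)),
      Window N → Pool.Agent.Q181.LG.Win N := by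
    rintro m n N ⟨L, hN, hw | ⟨K, hK, hw⟩⟩
    · exact Pool.Agent.Q175.LG.win_size N L hw hN
    · exact Pool.Agent.Q175.LG.win_gap N L K hw hK hN
  have h3 : ∀ (P : Type) [AddCommGroup P] [Module (LR G r) P],
      Module.FinitePresentation (LR G r) P → ∃ C : ℕ, ∀ L : ℕ, 1 ≤ L → Near G r C L P := by
    intro P _ _ hP
    obtain ⟨m, n, A, ⟨e⟩⟩ := Pool.Agent.Q175.LG.fp_coker P hP
    obtain ⟨C, hC⟩ := Pool.Agent.Q175.LG.dil_coker
      (MonoidHom.fst G (Multiplicative (Fin r → ℤ))) A
    refine ⟨m + n + C, fun L hL => ?_⟩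
    obtain ⟨l, M, N, hl, ⟨e'⟩, hM, hN⟩ := hC L hL
    refine ⟨m + l, n + l, N, ?_, ?_, hN, M, fun i j g hg => hM i j g hg, ⟨e.trans e'⟩⟩
    · have h1 : m ≤ m * L := Nat.le_mul_of_pos_right _ hL
      nlinarith [Nat.zero_le (n * L)]
    · have h1 : n ≤ n * L := Nat.le_mul_of_pos_right _ hL
      nlinarith [Nat.zero_le (m * L)]
  refine ⟨?_, h3, ?_, ?_⟩
  · rintro P _ _ m n N ⟨M, hs, ⟨e⟩⟩ hw
    have h := Pool.Agent.Q175.LG.fib_win (MonoidHom.fst G (Multiplicative (Fin r → ℤ)))
      Prod.fst_surjective P m n M e N (hwin N hw) hs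
    refine ⟨?_, fun hP => Pool.Agent.Q175.LG.free_of_fib G htf r P hP h⟩
    obtain ⟨k, V, p, q, B, -, h2, h4, -⟩ := h
    exact ⟨k, V, p, q, B, h2 htf, h4⟩
  · rintro h C
    refine ⟨1, le_rfl, fun P _ _ hP ⟨m, n, N, _, _, _, M, hs, ⟨e⟩⟩ => ?_⟩
    exact h P (Module.Finite.equiv e.symm) hP
  · intro h P _ _ hfin hP
    obtain ⟨C, hC⟩ := h3 P (Module.finitePresentation_of_projective _ _)
    obtain ⟨L, hL, hL2⟩ := h C
    exact hL2 P hP (hC L hL)

end Pool.Agent.Results.MP_16fe43_al.LaurentWindow
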