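import Pool.Agent.Q181.SUP.Main

/-!
# Kernels with an equivariant system of retractions

A support system on a group `N` consists of a set `X` and of endomorphisms `e S` of `N`, `S ⊆ X`,
with `e S ∘ e T = e (S ∩ T)` for finite `S` and `T`, such that each element of `N` is fixed by `e S`
for some finite `S`. So `N` is the union of the retracts `e S (N)`, `S` finite. Examples are graph
products with vertex set `X`, even Artin groups with generators `X`, relatively free groups, and
the pure braid group on an ordered set `X` of strands, where `e S` forgets the strands which are not in
`S`.

`ClosedE C` lists closure properties of the class of the groups which satisfy the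
K-theoretic Farrell–Jones conjecture with additive category coefficients and finite wreath products.
The torsion-free groups `G` in this class satisfy `Wh(G) = 0`, `K₀(ℤG) = ℤ` and `K_n(ℤG) = 0` for
`n < 0`. `D = C` is allowed.

Outline of the proof. By the extension criterion one has to realize the conjugation by `g` on finitely
many elements of `N`, with supports in a finite set `S`, in a group in `C`. Let `A` be the union of the
finite orbits of `g` which meet `S`, and enlarge `S` so that `S` contains `A` and `g S`. The sequence
`(e S (g⁻ⁿ x g ^ n))` of an element `x` with support in `S` is equal to `g⁻ⁿ (e A x) g ^ n` for almost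
all integers `n`, because `S ∩ g ^ n S = A` for almost all `n`. The shift conjugates the sequence of
`x` to that of `g x g⁻¹`. The group generated by the shift and by all sequences of this kind is an
extension of the torus of `g` on `e A (N)` by a restricted direct sum of copies of `e S (N)`, so it
is in `C`.
-/

set_option autoImplicit false

namespace Pool.Agent.Results.MP_16fe43_al.SupportSystems

open Q181.SUP (SupSys)
open Pool.Agent.Y110.FJ (ClosedE)
open Q30.FJ (ClosedOver)

/-- Let `C` be a class of groups with the closure properties `ClosedE C`, and let the class `D` be
closed under subgroups and satisfy the extension principle over `C` (`D = C` is possible). Let `s` be a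
support system on the group `N` with index set `X` such that the images of the `s.e S`, `S` finite,
are in `C`.

(1) Let `K` be a normal subgroup of a group `G` with an isomorphism `e : N ≃* K`, and let `G ⧸ K` be in
`D`. Suppose that for every `g` in `G` there are `n` in `K` and a permutation `π` of `X` such that the
conjugation by `u = n * g` carries `s.e S` to `s.e (π S)` for all finite `S`, and that for each finite
`A` with `π A = A` the group generated by `u` and the image of `s.e A` is in `C`. Then `G` is in `D`.

(2) Let a group `Γ` in `D` act on `X` and, by `φ`, on `N`, such that `γ` carries `s.e S` to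
`s.e (γ S)` for all finite `S`, and the pointwise stabilizer of `S` acts trivially on the image of
`s.e S`. Then the semidirect product of `N` and `Γ` is in `D`. -/
theorem result (C D : ∀ (G : Type) [Group G], Prop) (hC : ClosedE C) (hD : ClosedOver C D)
    (N X : Type) [Group N] (s : SupSys N X) (hN : ∀ S : Set X, S.Finite → C (s.e S).range) :
    (∀ (G : Type) [Group G] (K : Subgroup G) [K.Normal] (e : N ≃* K), D (G ⧸ K) →
      (∀ g : G, ∃ (n : K) (π : Equiv.Perm X),
        (∀ S : Set X, S.Finite → ∀ x y : N, (n * g : G) * (e x : G) * (n * g : G)⁻¹ = (e y : G) →
          (n * g : G) * (e (s.e S x) : G) * (n * g : G)⁻¹ = (e (s.e (π '' S) y) : G)) ∧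
        ∀ A : Set X, A.Finite → π '' A = A →
          C ↥((s.e A).range.map (K.subtype.comp e.toMonoidHom) ⊔
            Subgroup.zpowers (n * g : G))) → D G) ∧
    (∀ (Γ : Type) [Group Γ] [MulAction Γ X] (φ : Γ →* MulAut N), D Γ →
      (∀ (γ : Γ) (S : Set X), S.Finite → ∀ x,
        φ γ (s.e S x) = s.e ((fun i => γ • i) '' S) (φ γ x)) →
      (∀ (γ : Γ) (S : Set X), S.Finite → (∀ i ∈ S, γ • i = i) → ∀ x,
        φ γ (s.e S x) = s.e S x) → D (N ⋊[φ] Γ)) := by
  refine ⟨?_, ?_⟩
  · intro G _ K _ e hQ h
    exact Q181.SUP.main_over hC hD s hN G K e hQ h
  · intro Γ _ _ φ hΓ h1 h2
    exact Q181.SUP.sd_over hC hD s hN Γ φ hΓ h1 h2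

end Pool.Agent.Results.MP_16fe43_al.SupportSystems
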